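import Pool.Agent.L0h72.Kag.Inv

/-!
For all `n ≥ 3` there are two 3-colourings of the kagome lattice with different invariants.
-/

set_option autoImplicit false

namespace Pool.Agent.L0h72.Kag

open Pool.Agent.H411R2.WSK

/-- the colours at the vertex `(i, j)` of type `A` -/
def col (n i j : ℕ) (t : Fin 3) : Fin 3 :=
  if i + 3 ≤ n then
    (if j + 1 = n then ![1, 0, 2] t else if i + j + 2 = n then ![0, 2, 1] t else t)
  else if i + 2 = n then
    (if j = 0 then ![1, 2, 0] t else if j + 1 = n then ![2, 0, 1] t else t)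
  else (if j = 0 then ![2, 0, 1] t else if j + 2 = n then ![1, 2, 0] t else ![2, 1, 0] t)

/-- cyclic successor -/
def sc (n k : ℕ) : ℕ := if k + 1 = n then 0 else k + 1

theorem col_inj (n i j : ℕ) : ∀ s t : Fin 3, s ≠ t → col n i j s ≠ col n i j t := by
  unfold col
  split_ifs <;> decide

/-- the colours at the vertex `(i, j)` of type `B` -/
def bcol (n i j : ℕ) (t : Fin 3) : Fin 3 :=
  ![col n i j 0, col n (sc n i) j 1, col n i (sc n j) 2] t

theorem sc_cases (n k : ℕ) : (k + 1 = n ∧ sc n k = 0) ∨ (k + 1 ≠ n ∧ sc n k = k + 1) := by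
  unfold sc
  split_ifs with h
  · exact Or.inl ⟨h, rfl⟩
  · exact Or.inr ⟨h, rfl⟩

set_option maxHeartbeats 2000000 in
theorem bcol_inj {n i j : ℕ} (hn : 3 ≤ n) (hi : i < n) (hj : j < n) :
    ∀ s t : Fin 3, s ≠ t → bcol n i j s ≠ bcol n i j t := by
  unfold bcol
  rcases sc_cases n i with ⟨h1, e1⟩ | ⟨h1, e1⟩ <;> rcases sc_cases n j with ⟨h2, e2⟩ | ⟨h2, e2⟩ <;>
    rw [e1, e2] <;> unfold col <;> split_ifs <;> first | omega | contradiction | decide

set_option maxHeartbeats 2000000 in
theorem term_eq {n i j : ℕ} (hn : 3 ≤ n) (hi : i < n) (hj : j < n) :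
    neg (col n i j 0) (col n i j 1) + neg (col n i j 0) (col n (sc n i) j 1) =
      if i + 3 ≤ n then
        (if j = n - 2 - i then 1 else 0) + (if j = n - 3 - i then 1 else 0)
      else if i + 2 = n then
        (if j = 0 then 1 else 0) + (if j = n - 2 then 1 else 0) + (if j = n - 1 then 1 else 0)
      else (if j = 0 then 1 else 0) + (if j = n - 1 then 1 else 0) := by
  rcases sc_cases n i with ⟨h1, e1⟩ | ⟨h1, e1⟩ <;> rw [e1] <;> unfold col <;> split_ifs <;>
    first | omega | contradiction | decide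

theorem val_add_one {n : ℕ} [NeZero n] (hn : 2 ≤ n) (a : ZMod n) : (a + 1).val = sc n a.val := by
  have : Fact (1 < n) := ⟨by omega⟩
  have ha := ZMod.val_lt a
  rw [ZMod.val_add, ZMod.val_one]
  rcases sc_cases n a.val with ⟨h1, h2⟩ | ⟨h1, h2⟩
  · rw [h2, h1, Nat.mod_self]
  · rw [h2, Nat.mod_eq_of_lt (by omega)]

/-- the second colouring -/
def c2 {n : ℕ} (e : P n × Fin 3) : Fin 3 := col n e.1.1.val e.1.2.val e.2

theorem c2_proper {n : ℕ} [NeZero n] (hn : 3 ≤ n) : Proper (model n) (c2 (n := n)) := by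
  rintro ⟨x, s⟩ ⟨y, t⟩ ⟨h1, h2⟩
  simp only at h2
  rcases h2 with h2 | h2
  · subst h2
    have hst : s ≠ t := fun h => h1 (by rw [h])
    exact col_inj n _ _ s t hst
  · have hst : s ≠ t := by
      rintro rfl
      exact h1 (by rw [sub_left_inj] at h2; rw [h2])
    set z : P n := x - dv n s with hz
    have hx : x = z + dv n s := by rw [hz, sub_add_cancel]
    have hy : y = z + dv n t := by rw [h2, sub_add_cancel]
    have key : ∀ r : Fin 3, c2 (z + dv n r, r) = bcol n z.1.val z.2.val r := by
      intro r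
      fin_cases r
      · simp [c2, bcol, dv]
      · simp [c2, bcol, dv, val_add_one (by omega : 2 ≤ n)]
      · simp [c2, bcol, dv, val_add_one (by omega : 2 ≤ n)]
    rw [hx, hy, key, key]
    exact bcol_inj hn (ZMod.val_lt _) (ZMod.val_lt _) s t hst

theorem sum_zmod {n : ℕ} [NeZero n] (f : ℕ → ZMod 2) :
    ∑ x : ZMod n, f x.val = ∑ i ∈ Finset.range n, f i := by
  refine Finset.sum_bij (fun x _ => x.val) ?_ ?_ ?_ ?_
  · intro x _; exact Finset.mem_range.2 (ZMod.val_lt x)
  · intro x _ y _ h; exact ZMod.val_injective n h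
  · intro i hi
    exact ⟨(i : ZMod n), Finset.mem_univ _, ZMod.val_cast_of_lt (Finset.mem_range.1 hi)⟩
  · intro x _; rfl

theorem inv_c2 {n : ℕ} [NeZero n] (hn : 3 ≤ n) : inv (c2 (n := n)) = 1 := by
  unfold inv
  have h1 : ∀ x : P n, neg (c2 (x, 0)) (c2 (x, 1)) + neg (c2 (x, 0)) (c2 (x + dv n 1, 1)) =
      if x.1.val + 3 ≤ n then
        (if x.2.val = n - 2 - x.1.val then 1 else 0) + (if x.2.val = n - 3 - x.1.val then 1 else 0)
      else if x.1.val + 2 = n then
        (if x.2.val = 0 then 1 else 0) + (if x.2.val = n - 2 then 1 else 0) +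
          (if x.2.val = n - 1 then 1 else 0)
      else (if x.2.val = 0 then 1 else 0) + (if x.2.val = n - 1 then 1 else 0) := by
    intro x
    rw [← term_eq hn (ZMod.val_lt _) (ZMod.val_lt _)]
    simp [c2, dv, val_add_one (by omega : 2 ≤ n)]
  rw [Finset.sum_congr rfl (fun x _ => h1 x), Fintype.sum_prod_type]
  simp only
  have h2 : ∀ i : ZMod n, (∑ y : ZMod n, (if i.val + 3 ≤ n then
        (if y.val = n - 2 - i.val then (1 : ZMod 2) else 0) +
          (if y.val = n - 3 - i.val then 1 else 0)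
      else if i.val + 2 = n then
        (if y.val = 0 then 1 else 0) + (if y.val = n - 2 then 1 else 0) +
          (if y.val = n - 1 then 1 else 0)
      else (if y.val = 0 then 1 else 0) + (if y.val = n - 1 then 1 else 0))) =
      if i.val = n - 2 then 1 else 0 := by
    intro i
    have hs : ∀ a : ℕ, a < n → ∑ y : ZMod n, (if y.val = a then (1 : ZMod 2) else 0) = 1 := by
      intro a ha
      rw [sum_zmod (fun y => if y = a then (1 : ZMod 2) else 0), Finset.sum_ite_eq']
      simp [ha]
    have hi := ZMod.val_lt i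
    by_cases h3 : i.val + 3 ≤ n
    · simp only [h3, if_true]
      rw [Finset.sum_add_distrib, hs _ (by omega), hs _ (by omega), if_neg (by omega)]
      decide
    · by_cases h4 : i.val + 2 = n
      · simp only [h3, h4, if_true, if_false]
        rw [Finset.sum_add_distrib, Finset.sum_add_distrib, hs _ (by omega), hs _ (by omega),
          hs _ (by omega), if_pos (by omega)]
        decide
      · simp only [h3, h4, if_false]
        rw [Finset.sum_add_distrib, hs _ (by omega), hs _ (by omega), if_neg (by omega)]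
        decide
  rw [Finset.sum_congr rfl (fun i _ => h2 i), sum_zmod (fun i => if i = n - 2 then (1 : ZMod 2) else 0),
    Finset.sum_ite_eq']
  simp
  omega

/-- the colouring by the type of the edge -/
def c1 {n : ℕ} (e : P n × Fin 3) : Fin 3 := e.2

theorem c1_proper {n : ℕ} : Proper (model n) (c1 (n := n)) := by
  rintro ⟨x, s⟩ ⟨y, t⟩ ⟨h1, h2⟩ h
  simp only [c1] at h h2
  subst h
  rcases h2 with h2 | h2
  · exact h1 (by rw [h2])
  · exact h1 (by rw [sub_left_inj] at h2; rw [h2])

theorem inv_c1 {n : ℕ} [NeZero n] : inv (c1 (n := n)) = 0 := by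
  unfold inv
  apply Finset.sum_eq_zero
  intro x _
  simp [c1, neg]

theorem model_not_ergodic {n : ℕ} (hn : 3 ≤ n) : ¬ WSKErgodic (model n) 3 := by
  intro h
  have : NeZero n := ⟨by omega⟩
  have h1 := inv_reach (h (toCol c1 c1_proper) (toCol c2 (c2_proper hn)))
  have h2 : inv (n := n) (toCol (c2 (n := n)) (c2_proper hn)) = 1 := inv_c2 hn
  have h3 : inv (n := n) (toCol (c1 (n := n)) c1_proper) = 0 := inv_c1
  rw [h2, h3] at h1
  exact one_ne_zero h1

theorem kagome_not_ergodic {n : ℕ} (hn : 3 ≤ n) : ¬ WSKErgodic (kagome n) 3 := by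
  have : NeZero n := ⟨by omega⟩
  have hfin : Finite (honeycomb n).edgeSet := inferInstance
  intro h
  exact model_not_ergodic hn (ergodic_of_iso (iso (by omega : 2 ≤ n)).symm h)

end Pool.Agent.L0h72.Kag
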