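import Pool.Agent.L0h72.Kag.Model

/-!
The product of the chiralities of all vertices of the honeycomb graph is invariant under Kempe
changes of the 3-colourings of the kagome lattice.
-/

set_option autoImplicit false

namespace Pool.Agent.L0h72.Kag

open Pool.Agent.H411R2.WSK

/-- `1` if the three colours `p, q, r` of the edges of type `0, 1, 2` at a vertex are not a cyclic
shift of `0, 1, 2`, and `0` if they are. -/
def neg (p q : Fin 3) : ZMod 2 := if q = p + 1 then 0 else 1

set_option synthInstance.maxSize 2000 in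
theorem local_swap : ∀ (g : Fin 3 → Fin 3) (u : Fin 3 → Bool) (a b : Fin 3), a ≠ b →
    Function.Injective g → (∀ t, u t = true → g t = a ∨ g t = b) →
    (∀ t s, u t = true → (g s = a ∨ g s = b) → u s = true) →
    neg (if u 0 then Equiv.swap a b (g 0) else g 0) (if u 1 then Equiv.swap a b (g 1) else g 1) =
      neg (g 0) (g 1) + ∑ t : Fin 3, (if u t = true ∧ g t = a then 1 else 0) := by
  decide +kernel

/-- the invariant -/
def inv {n : ℕ} [NeZero n] (c : P n × Fin 3 → Fin 3) : ZMod 2 :=
  ∑ x : P n, (neg (c (x, 0)) (c (x, 1)) + neg (c (x, 0)) (c (x + dv n 1, 1)))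

theorem model_adj_A {n : ℕ} {x : P n} {s t : Fin 3} (h : s ≠ t) : (model n).Adj (x, s) (x, t) :=
  ⟨fun h' => h (Prod.ext_iff.1 h').2, Or.inl rfl⟩

theorem model_adj_B {n : ℕ} {x : P n} {s t : Fin 3} (h : s ≠ t) :
    (model n).Adj (x + dv n s, s) (x + dv n t, t) :=
  ⟨fun h' => h (Prod.ext_iff.1 h').2, Or.inr (by simp)⟩

open Classical in
theorem inv_swap {n : ℕ} [NeZero n] {c c' : P n × Fin 3 → Fin 3} (hc : Proper (model n) c)
    {a b : Fin 3} (hab : a ≠ b) {U : Set (P n × Fin 3)} (hU : Closed (model n) c a b U)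
    (hs : IsSwap c c' a b U) : inv c' = inv c := by
  have hval : ∀ e, c' e = if e ∈ U then Equiv.swap a b (c e) else c e := by
    intro e
    by_cases he : e ∈ U
    · rw [if_pos he, hs.1 e he]
    · rw [if_neg he, hs.2 e he]
  -- the vertices of type `A`
  have hA : ∀ x : P n, neg (c' (x, 0)) (c' (x, 1)) = neg (c (x, 0)) (c (x, 1)) +
      ∑ t : Fin 3, (if (x, t) ∈ U ∧ c (x, t) = a then 1 else 0) := by
    intro x
    have h := local_swap (fun t => c (x, t)) (fun t => decide ((x, t) ∈ U)) a b hab ?_ ?_ ?_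
    · simp only [decide_eq_true_eq] at h
      rw [hval, hval]
      exact h
    · intro s t hst
      by_contra hne
      exact hc _ _ (model_adj_A hne) hst
    · intro t ht
      exact hU.1 _ (by simpa using ht)
    · intro t s ht hs'
      by_cases hts : t = s
      · rw [← hts]; exact ht
      · simp only [decide_eq_true_eq] at ht ⊢
        exact hU.2 _ ht _ (model_adj_A hts) hs'
  have hB : ∀ x : P n, neg (c' (x, 0)) (c' (x + dv n 1, 1)) = neg (c (x, 0)) (c (x + dv n 1, 1)) +
      ∑ t : Fin 3, (if (x + dv n t, t) ∈ U ∧ c (x + dv n t, t) = a then 1 else 0) := by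
    intro x
    have h0 : dv n 0 = 0 := by simp [dv]
    have h := local_swap (fun t => c (x + dv n t, t)) (fun t => decide ((x + dv n t, t) ∈ U)) a b hab
      ?_ ?_ ?_
    · simp only [decide_eq_true_eq, h0, add_zero] at h
      rw [hval, hval]
      exact h
    · intro s t hst
      by_contra hne
      exact hc _ _ (model_adj_B hne) hst
    · intro t ht
      exact hU.1 _ (by simpa using ht)
    · intro t s ht hs'
      by_cases hts : t = s
      · rw [← hts]; exact ht
      · simp only [decide_eq_true_eq] at ht ⊢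
        exact hU.2 _ ht _ (model_adj_B hts) hs'
  -- the two sums
  have hsum : ∀ t : Fin 3, ∑ x : P n, (if (x + dv n t, t) ∈ U ∧ c (x + dv n t, t) = a then
      (1 : ZMod 2) else 0) = ∑ x : P n, (if (x, t) ∈ U ∧ c (x, t) = a then 1 else 0) := by
    intro t
    exact Fintype.sum_equiv (Equiv.addRight (dv n t)) _ _ (fun x => rfl)
  unfold inv
  rw [Finset.sum_congr rfl (fun x _ => by rw [hA x, hB x])]
  have h2 : ∀ x : ZMod 2, x + x = 0 := by decide
  have h3 : ∑ x : P n, (∑ t : Fin 3, (if (x, t) ∈ U ∧ c (x, t) = a then (1 : ZMod 2) else 0)) +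
      ∑ x : P n, (∑ t : Fin 3, (if (x + dv n t, t) ∈ U ∧ c (x + dv n t, t) = a then
        (1 : ZMod 2) else 0)) = 0 := by
    rw [Finset.sum_comm, Finset.sum_comm (s := (Finset.univ : Finset (P n))) (t := Finset.univ)
      (f := fun x t => if (x + dv n t, t) ∈ U ∧ c (x + dv n t, t) = a then (1 : ZMod 2) else 0),
      Finset.sum_congr rfl (fun t _ => hsum t)]
    exact h2 _
  have h4 : ∑ x : P n, (neg (c (x, 0)) (c (x, 1)) +
        ∑ t : Fin 3, (if (x, t) ∈ U ∧ c (x, t) = a then 1 else 0) +
      (neg (c (x, 0)) (c (x + dv n 1, 1)) +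
        ∑ t : Fin 3, (if (x + dv n t, t) ∈ U ∧ c (x + dv n t, t) = a then 1 else 0))) =
      ∑ x : P n, (neg (c (x, 0)) (c (x, 1)) + neg (c (x, 0)) (c (x + dv n 1, 1))) +
      (∑ x : P n, (∑ t : Fin 3, (if (x, t) ∈ U ∧ c (x, t) = a then (1 : ZMod 2) else 0)) +
      ∑ x : P n, (∑ t : Fin 3, (if (x + dv n t, t) ∈ U ∧ c (x + dv n t, t) = a then
        (1 : ZMod 2) else 0))) := by
    rw [← Finset.sum_add_distrib, ← Finset.sum_add_distrib]
    refine Finset.sum_congr rfl fun x _ => ?_
    ring
  rw [h4, h3, add_zero]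

theorem inv_reach {n : ℕ} [NeZero n] {c c' : (model n).Coloring (Fin 3)}
    (h : Relation.ReflTransGen KempeStep c c') : inv (n := n) c' = inv (n := n) c := by
  induction h with
  | refl => rfl
  | tail _ hstep ih =>
    obtain ⟨a, b, hab, U, hU, hs⟩ := hstep.closed
    rename_i d d' _
    rw [← ih]
    exact inv_swap (fun v w h => d.valid h) hab hU hs

end Pool.Agent.L0h72.Kag
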