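import Pool.Agent.H411R2.WSK.Conn

/-!
A model of the periodic kagome lattice: the sites are pairs `(x, t)`, the edge of type `t` of the
honeycomb graph at the vertex `(x, A)`; it ends in `(x - dv t, B)`.
-/

set_option autoImplicit false

namespace Pool.Agent.L0h72.Kag

open Pool.Agent.H411R2.WSK

/-- the Bravais lattice -/
abbrev P (n : ℕ) : Type := ZMod n × ZMod n

/-- the difference vectors -/
def dv (n : ℕ) (t : Fin 3) : P n := ![((0 : ZMod n), (0 : ZMod n)), (1, 0), (0, 1)] t

/-- the kagome graph on the pairs `(x, t)` -/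
def model (n : ℕ) : SimpleGraph (P n × Fin 3) where
  Adj e f := e ≠ f ∧ (e.1 = f.1 ∨ e.1 - dv n e.2 = f.1 - dv n f.2)
  symm := ⟨fun e f h => ⟨h.1.symm, h.2.imp Eq.symm Eq.symm⟩⟩
  loopless := ⟨fun e h => h.1 rfl⟩

theorem honeycomb_adj {n : ℕ} (x : P n) (t : Fin 3) :
    (honeycomb n).Adj (Sum.inl x) (Sum.inr (x - dv n t)) := by
  rw [honeycomb, SimpleGraph.fromRel_adj]
  refine ⟨by simp, Or.inl ⟨x, rfl, ?_⟩⟩
  fin_cases t
  · left; simp [dv]
  · right; left; simp [dv]
  · right; right; simp [dv]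

/-- the edge of type `t` at `(x, A)` -/
def phi {n : ℕ} (e : P n × Fin 3) : (honeycomb n).edgeSet :=
  ⟨s(Sum.inl e.1, Sum.inr (e.1 - dv n e.2)), honeycomb_adj e.1 e.2⟩

theorem dv_inj {n : ℕ} (hn : 2 ≤ n) : Function.Injective (dv n) := by
  have h1 : (1 : ZMod n) ≠ 0 := by
    have : Fact (1 < n) := ⟨by omega⟩
    exact one_ne_zero
  intro s t h
  fin_cases s <;> fin_cases t <;> simp_all [dv]

theorem phi_inj {n : ℕ} (hn : 2 ≤ n) : Function.Injective (phi (n := n)) := by
  rintro ⟨x, s⟩ ⟨y, t⟩ h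
  have h' := congrArg Subtype.val h
  simp only [phi, Sym2.eq_iff, Sum.inl.injEq, Sum.inr.injEq, reduceCtorEq, and_self, or_false] at h'
  obtain ⟨rfl, h2⟩ := h'
  have := dv_inj hn (sub_right_injective h2)
  rw [this]

theorem phi_surj {n : ℕ} : Function.Surjective (phi (n := n)) := by
  have key : ∀ u v : P n ⊕ P n, (h : s(u, v) ∈ (honeycomb n).edgeSet) → (∃ x : P n, u = Sum.inl x ∧
      (v = Sum.inr x ∨ v = Sum.inr (x - (1, 0)) ∨ v = Sum.inr (x - (0, 1)))) →
      ∃ e, phi e = ⟨s(u, v), h⟩ := by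
    rintro u v h ⟨x, rfl, h1 | h1 | h1⟩
    · subst h1
      exact ⟨(x, 0), by apply Subtype.ext; simp [phi, dv]⟩
    · subst h1
      exact ⟨(x, 1), by apply Subtype.ext; simp [phi, dv]⟩
    · subst h1
      exact ⟨(x, 2), by apply Subtype.ext; simp [phi, dv]⟩
  rintro ⟨e, he⟩
  induction e using Sym2.ind with
  | _ u v =>
    have h := he
    rw [SimpleGraph.mem_edgeSet, honeycomb, SimpleGraph.fromRel_adj] at h
    rcases h.2 with h1 | h1
    · exact key u v he h1
    · have he' : s(v, u) ∈ (honeycomb n).edgeSet := by rwa [Sym2.eq_swap]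
      obtain ⟨e, h2⟩ := key v u he' h1
      exact ⟨e, by rw [h2]; apply Subtype.ext; exact Sym2.eq_swap⟩

theorem phi_adj {n : ℕ} (hn : 2 ≤ n) (e f : P n × Fin 3) :
    (kagome n).Adj (phi e) (phi f) ↔ (model n).Adj e f := by
  rw [kagome, SimpleGraph.lineGraph_adj_iff_exists]
  constructor
  · rintro ⟨h1, v, h2, h3⟩
    refine ⟨fun h => h1 (by rw [h]), ?_⟩
    simp only [phi, Sym2.mem_iff] at h2 h3
    rcases h2 with rfl | rfl
    · simp at h3; exact Or.inl h3
    · simp at h3; exact Or.inr h3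
  · rintro ⟨h1, h2⟩
    refine ⟨fun h => h1 (phi_inj hn h), ?_⟩
    rcases h2 with h2 | h2
    · exact ⟨Sum.inl e.1, by simp [phi], by simp [phi, h2]⟩
    · exact ⟨Sum.inr (e.1 - dv n e.2), by simp [phi], by simp [phi, h2]⟩

/-- the kagome lattice and its model are isomorphic -/
noncomputable def iso {n : ℕ} (hn : 2 ≤ n) : model n ≃g kagome n where
  toEquiv := Equiv.ofBijective phi ⟨phi_inj hn, phi_surj⟩
  map_rel_iff' := by
    intro e f
    exact phi_adj hn e f

/-- ergodicity is invariant under isomorphism -/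
theorem ergodic_of_iso {V W : Type*} [Finite V] [Finite W] {G : SimpleGraph V} {H : SimpleGraph W}
    {q : ℕ} (e : G ≃g H) (h : WSKErgodic G q) : WSKErgodic H q := by
  have key : ∀ d d' : G.Coloring (Fin q), Relation.ReflTransGen KempeStep d d' →
      Conn H (fun w => d (e.symm w)) (fun w => d' (e.symm w)) := by
    intro d d' h
    have hp : ∀ d : G.Coloring (Fin q), Proper H (fun w => d (e.symm w)) := by
      intro d v w hvw
      exact d.valid (e.symm.map_adj_iff.2 hvw)
    induction h with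
    | refl => exact Conn.refl (hp d)
    | tail _ hstep ih =>
      obtain ⟨a, b, hab, U, hU, hs⟩ := hstep.closed
      rename_i d1 d2 _
      refine ih.trans ?_
      refine conn_of_closed (hp d1) hab (U := e.symm ⁻¹' U) ⟨?_, ?_⟩ ⟨?_, ?_⟩
      · intro v hv; exact hU.1 _ hv
      · intro v hv w hvw hw; exact hU.2 _ hv _ (e.symm.map_adj_iff.2 hvw) hw
      · intro v hv; exact hs.1 _ hv
      · intro v hv; exact hs.2 _ hv
  intro c c'
  have h1 := key (c.comp e.toHom) (c'.comp e.toHom) (h _ _)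
  obtain ⟨h2, h3, h4⟩ := h1
  have e1 : ∀ c : H.Coloring (Fin q), ∀ hc : Proper H (fun w => (c.comp e.toHom) (e.symm w)),
      toCol (fun w => (c.comp e.toHom) (e.symm w)) hc = c := by
    intro c hc
    apply DFunLike.ext
    intro w
    rw [toCol_apply]
    show c (e (e.symm w)) = c w
    rw [e.apply_symm_apply]
  rwa [e1 c, e1 c'] at h4

end Pool.Agent.L0h72.Kag
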