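import Pool.Agent.L0h72.Kag.Col

/-!
The WSK dynamics for three colours on the kagome lattice with 12 sites is ergodic.
-/

set_option autoImplicit false

namespace Pool.Agent.L0h72.Kag

open Pool.Agent.H411R2.WSK

/-- the colouring of the model with the given colours at the four vertices of type `A` -/
def mk4 (f00 f01 f10 f11 : Fin 3 → Fin 3) (e : P 2 × Fin 3) : Fin 3 :=
  if e.1 = (0, 0) then f00 e.2 else if e.1 = (0, 1) then f01 e.2 else
    if e.1 = (1, 0) then f10 e.2 else f11 e.2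

theorem eq_mk4 (c : P 2 × Fin 3 → Fin 3) :
    c = mk4 (fun t => c ((0, 0), t)) (fun t => c ((0, 1), t)) (fun t => c ((1, 0), t))
      (fun t => c ((1, 1), t)) := by
  funext ⟨⟨i, j⟩, t⟩
  unfold mk4
  fin_cases i <;> fin_cases j <;> rfl

set_option synthInstance.maxSize 5000 in
theorem four : ∀ f01 : Fin 3 → Fin 3, Function.Injective f01 →
    ∀ f10 : Fin 3 → Fin 3, Function.Injective f10 → f10 1 ≠ 0 → f01 2 ≠ 0 → f10 1 ≠ f01 2 →
      f10 0 ≠ 1 → f01 0 ≠ 2 →
    ∀ f11 : Fin 3 → Fin 3, Function.Injective f11 → f11 2 ≠ 1 → f10 0 ≠ f11 2 →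
      f11 1 ≠ 2 → f01 0 ≠ f11 1 → f11 0 ≠ f01 1 → f11 0 ≠ f10 2 → f01 1 ≠ f10 2 →
    (f01 = ![0, 1, 2] ∧ f10 = ![0, 1, 2] ∧ f11 = ![0, 1, 2]) ∨
    (f01 = ![0, 1, 2] ∧ f10 = ![2, 1, 0] ∧ f11 = ![2, 1, 0]) ∨
    (f01 = ![0, 2, 1] ∧ f10 = ![0, 2, 1] ∧ f11 = ![0, 1, 2]) ∨
    (f01 = ![1, 0, 2] ∧ f10 = ![0, 1, 2] ∧ f11 = ![1, 0, 2]) := by
  decide +kernel

instance (e f : P 2 × Fin 3) : Decidable ((model 2).Adj e f) := by
  unfold model
  infer_instance

/-- decidable form of a closed swap leading to `c1` -/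
def okSwap (c : P 2 × Fin 3 → Fin 3) (a b : Fin 3) (u : P 2 × Fin 3 → Bool) : Prop :=
  (∀ v, u v = true → c v = a ∨ c v = b) ∧
  (∀ v, u v = true → ∀ w, (model 2).Adj v w → (c w = a ∨ c w = b) → u w = true) ∧
  (∀ v, c1 v = if u v = true then Equiv.swap a b (c v) else c v)

instance (c : P 2 × Fin 3 → Fin 3) (a b : Fin 3) (u : P 2 × Fin 3 → Bool) :
    Decidable (okSwap c a b u) := by
  unfold okSwap
  infer_instance

theorem conn_of_ok {c : P 2 × Fin 3 → Fin 3} (hc : Proper (model 2) c) {a b : Fin 3} (hab : a ≠ b)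
    {u : P 2 × Fin 3 → Bool} (h : okSwap c a b u) : Conn (model 2) c (c1 (n := 2)) := by
  refine conn_of_closed hc hab (U := {v | u v = true}) ⟨h.1, h.2.1⟩ ⟨?_, ?_⟩
  · intro v hv
    have hv' : u v = true := hv
    rw [h.2.2 v, if_pos hv']
  · intro v hv
    have hv' : ¬ u v = true := hv
    rw [h.2.2 v, if_neg hv']

theorem conn_id {c : P 2 × Fin 3 → Fin 3} (hc : Proper (model 2) c)
    (h0 : ∀ t, c ((0, 0), t) = t) : Conn (model 2) c (c1 (n := 2)) := by
  have hA : ∀ x : P 2, Function.Injective (fun t => c (x, t)) := by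
    intro x s t hst
    by_contra hne
    exact hc _ _ (model_adj_A hne) hst
  have hB : ∀ (x y : P 2) (s t : Fin 3), s ≠ t → x - dv 2 s = y - dv 2 t →
      c (x, s) ≠ c (y, t) := by
    intro x y s t hst h
    exact hc _ _ ⟨fun h' => hst (Prod.ext_iff.1 h').2, Or.inr h⟩
  have h1 := four (fun t => c ((0, 1), t)) (hA _) (fun t => c ((1, 0), t)) (hA _)
    (by have := hB (1, 0) (0, 0) 1 0 (by decide) (by decide); rwa [h0] at this)
    (by have := hB (0, 1) (0, 0) 2 0 (by decide) (by decide); rwa [h0] at this)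
    (hB _ _ _ _ (by decide) (by decide))
    (by have := hB (1, 0) (0, 0) 0 1 (by decide) (by decide); rwa [h0] at this)
    (by have := hB (0, 1) (0, 0) 0 2 (by decide) (by decide); rwa [h0] at this)
    (fun t => c ((1, 1), t)) (hA _)
    (by have := hB (1, 1) (0, 0) 2 1 (by decide) (by decide); rwa [h0] at this)
    (hB _ _ _ _ (by decide) (by decide))
    (by have := hB (1, 1) (0, 0) 1 2 (by decide) (by decide); rwa [h0] at this)
    (hB _ _ _ _ (by decide) (by decide))
    (hB _ _ _ _ (by decide) (by decide))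
    (hB _ _ _ _ (by decide) (by decide))
    (hB _ _ _ _ (by decide) (by decide))
  have h00 : (fun t => c ((0, 0), t)) = ![0, 1, 2] := by
    funext t
    rw [h0]
    fin_cases t <;> rfl
  have hc' := eq_mk4 c
  rw [h00] at hc'
  rcases h1 with ⟨e1, e2, e3⟩ | ⟨e1, e2, e3⟩ | ⟨e1, e2, e3⟩ | ⟨e1, e2, e3⟩
  · rw [e1, e2, e3] at hc'
    have : c = c1 (n := 2) := by
      rw [hc']
      decide +kernel
    rw [this]
    exact Conn.refl c1_proper
  · rw [e1, e2, e3] at hc'
    refine conn_of_ok hc (a := 0) (b := 2) (by decide)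
      (u := fun e => decide (e.1.1 = 1 ∧ e.2 ≠ 1)) ?_
    rw [hc']
    decide +kernel
  · rw [e1, e2, e3] at hc'
    refine conn_of_ok hc (a := 1) (b := 2) (by decide)
      (u := fun e => decide ((e.1 = (0, 1) ∨ e.1 = (1, 0)) ∧ e.2 ≠ 0)) ?_
    rw [hc']
    decide +kernel
  · rw [e1, e2, e3] at hc'
    refine conn_of_ok hc (a := 0) (b := 1) (by decide)
      (u := fun e => decide (e.1.2 = 1 ∧ e.2 ≠ 2)) ?_
    rw [hc']
    decide +kernel

theorem model_two : WSKErgodic (model 2) 3 := by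
  refine ergodic_of_conn (base := c1 (n := 2)) ?_
  intro c hc
  have hinj : Function.Injective (fun t => c ((0, 0), t)) := by
    intro s t hst
    by_contra hne
    exact hc _ _ (model_adj_A hne) hst
  let σ : Equiv.Perm (Fin 3) := Equiv.ofBijective _ (Finite.injective_iff_bijective.mp hinj)
  have h1 := Conn.perm hc σ.symm
  refine h1.trans (conn_id (proper_perm hc σ.symm) ?_)
  intro t
  exact σ.symm_apply_apply t

theorem kagome_two : WSKErgodic (kagome 2) 3 :=
  ergodic_of_iso (iso le_rfl) model_two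

end Pool.Agent.L0h72.Kag
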